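import Pool.Agent.RS.StmtsF

set_option autoImplicit false

/-!
# Squad RS, row DET: detection of poles
-/

namespace Pool.Agent.RS.H47

open MvPolynomial

/-- division in the field of rational functions -/
theorem smul_frac {L : Type} [Field L] {Q P h r : Polynomial L} {k : L} {B : ℕ} (c : ℕ)
    (hQ : Q ≠ 0) (h6 : Polynomial.C k * P = Q ^ B * h + r) :
    k • (algebraMap (Polynomial L) (RatFunc L) (Polynomial.X ^ c) *
      (algebraMap (Polynomial L) (RatFunc L) P / algebraMap (Polynomial L) (RatFunc L) Q ^ B)) =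
    algebraMap (Polynomial L) (RatFunc L) (Polynomial.X ^ c * h) /
      algebraMap (Polynomial L) (RatFunc L) 1 +
    algebraMap (Polynomial L) (RatFunc L) (Polynomial.X ^ c * r) /
      algebraMap (Polynomial L) (RatFunc L) Q ^ B := by
  have hAQ : algebraMap (Polynomial L) (RatFunc L) Q ≠ 0 := by
    intro h0
    exact hQ ((IsFractionRing.injective (Polynomial L) (RatFunc L)) (h0.trans (map_zero _).symm))
  have hB := pow_ne_zero B hAQ
  have h7 := congrArg (algebraMap (Polynomial L) (RatFunc L)) h6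
  rw [map_mul, map_add, map_mul, map_pow] at h7
  have h8 : algebraMap L (RatFunc L) k =
      algebraMap (Polynomial L) (RatFunc L) (Polynomial.C k) := rfl
  rw [Algebra.smul_def, h8, map_one, div_one, map_mul, map_mul, mul_left_comm, ← mul_div_assoc,
    h7, add_div, mul_add, mul_div_cancel_left₀ _ hB, mul_div_assoc]

theorem det (hBez : BezStmt) (hPsd : PsdStmt) (hRes : ResStmt) (hLmk : LmkStmt) (hLmb : LmbStmt)
    (hTxc : TxcStmt) (hPjb : PjbStmt) : DetStmt := by
  intro E _ j q f g B hq hj hg hB hc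
  obtain ⟨-, -, -, -, -, P6, -, P8⟩ := hPjb E
  obtain ⟨D', hD'⟩ := hBez (max q.totalDegree g.totalDegree)
  obtain ⟨α, β, ρ, hρ, hρ0, hρj, -, -, -, -⟩ :=
    hD' E j q g hq hj hg (le_max_left _ _) (le_max_right _ _)
  have hq0 : q ≠ 0 := hq.ne_zero
  have hg0 : g ≠ 0 := by
    rintro rfl
    exact hg (dvd_zero _)
  have hB0 : B ≠ 0 := hB.ne'
  have ioz : ∀ {x : MvPolynomial ℕ E}, x ≠ 0 → io E x ≠ 0 := fun hx h =>
    hx (io_injective (h.trans (map_zero (io E)).symm))
  -- a nonzero polynomial which is free of `x_j` is not divisible by `q`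
  have free : ∀ {x : MvPolynomial ℕ E}, x ≠ 0 → j ∉ x.vars → ¬ q ∣ x := by
    intro x hx hjx hqx
    exact (P8 j q).2 ((P6 {j} q x hx hqx).1 ((P8 j x).1 hjx)) hj
  -- the power of the Bezout relation
  obtain ⟨β', hβ'⟩ : ∃ β' : MvPolynomial ℕ E, ρ ^ B = α ^ B * q ^ B + β' * g := by
    obtain ⟨k, hk⟩ := sub_dvd_pow_sub_pow ρ (α * q) B
    refine ⟨β * k, ?_⟩
    have e1 : ρ - α * q = β * g := by rw [hρ]; ring
    rw [e1, mul_pow] at hk
    have : ρ ^ B = α ^ B * q ^ B + (ρ ^ B - α ^ B * q ^ B) := by ring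
    rw [this, hk]
    ring
  have hρBj : j ∉ (ρ ^ B).vars := (P8 j _).2 (Subring.pow_mem _ ((P8 j ρ).1 hρj) B)
  set W : FF E := io E f / (io E q ^ B * io E g) with hW
  have hioq : io E q ≠ 0 := ioz hq0
  have hiog : io E g ≠ 0 := ioz hg0
  have hsplit : io E (ρ ^ B) * W = io E (f * β') / io E q ^ B + io E (f * α ^ B) / io E g := by
    rw [hβ', hW]
    simp only [map_add, map_mul, map_pow]
    field_simp
    ring
  have h2 : ∀ c < B * (toX j q).natDegree, lam j q c (io E (f * β') / io E q ^ B) = 0 := by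
    intro c hcB
    have h3 := (hLmk E j q (ρ ^ B) c W hρBj).1
    rw [hc c hcB, mul_zero, hsplit, map_add, hLmb E j q (f * α ^ B) g α β ρ c hρ hρ0 hρj hj,
      add_zero] at h3
    exact h3
  -- one variable
  obtain ⟨T1, T2, T3, T4, T5⟩ := hTxc E j q
  set qt := toX j q with hqt
  have hδ : 0 < qt.natDegree := T4.2 hj
  have hqt0 : qt ≠ 0 := by
    intro h
    rw [h, Polynomial.natDegree_zero] at hδ
    exact lt_irrefl _ hδ
  set G := qt ^ B with hG
  have hGdeg : G.natDegree = B * qt.natDegree := Polynomial.natDegree_pow _ _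
  have hGpos : 0 < G.natDegree := by
    rw [hGdeg]
    exact Nat.mul_pos hB hδ
  have hGlc : G.leadingCoeff = qt.leadingCoeff ^ B := Polynomial.leadingCoeff_pow _ _
  have hcoef : ∀ (x : MvPolynomial ℕ E) (i : ℕ), (toX j x).coeff i ∈ PJ E {j} := by
    intro x i
    refine (P8 j _).1 fun h => ?_
    have := (hTxc E j x).2.1 i h
    exact (Finset.notMem_erase j _) this
  have hGcoef : ∀ i, G.coeff i ∈ PJ E {j} := by
    intro i
    have : G = toX j (q ^ B) := by rw [hG, hqt, map_pow]
    rw [this]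
    exact hcoef _ i
  obtain ⟨M, h, r, hdiv, hrdeg, hhS, hrS⟩ := hPsd (MvPolynomial ℕ E) (PJ E {j}) (toX j (f * β')) G
    hGpos (hcoef _) hGcoef
  have hlc0 : qt.leadingCoeff ≠ 0 := Polynomial.leadingCoeff_ne_zero.2 hqt0
  have hlcj : j ∉ (qt.leadingCoeff).vars := by
    intro hmem
    exact (Finset.notMem_erase j _) (T2 _ hmem)
  -- the field
  set Q : Polynomial (FF E) := atX j (io E) q with hQ
  have hQmap : Q = qt.map (io E) := rfl
  have hQdeg : Q.natDegree = qt.natDegree := by
    rw [hQmap, Polynomial.natDegree_map_eq_of_injective io_injective]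
  have hQlc : Q.leadingCoeff = io E qt.leadingCoeff := by
    rw [hQmap, Polynomial.leadingCoeff_map_of_injective io_injective]
  have hΛ : IsRes Q (res Q) := hRes (FF E) Q (by rw [hQdeg]; exact hδ)
  have hQ0 : Q ≠ 0 := by
    intro h0
    rw [h0, Polynomial.natDegree_zero] at hQdeg
    omega
  have hr0 : r = 0 := by
    by_contra hr
    have hrd : r.natDegree < B * qt.natDegree := hGdeg ▸ hrdeg
    set c := B * qt.natDegree - 1 - r.natDegree with hcdef
    have hcB : c < B * qt.natDegree := by omega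
    have hup : up j (io E (f * β') / io E q ^ B) =
        algebraMap (Polynomial (FF E)) (RatFunc (FF E)) ((toX j (f * β')).map (io E)) /
          algebraMap (Polynomial (FF E)) (RatFunc (FF E)) Q ^ B := by
      rw [map_div₀, map_pow, up_io, up_io]
      rfl
    have h4 := h2 c hcB
    rw [lam_apply, hup, ← hQ] at h4
    -- multiply by the leading coefficient
    have h6 := congrArg (Polynomial.map (io E)) hdiv
    rw [Polynomial.map_mul, Polynomial.map_C, Polynomial.map_add, Polynomial.map_mul, hG,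
      Polynomial.map_pow, ← hQmap, ← hG] at h6
    have h5 := smul_frac c hQ0 h6
    have h9 := congrArg (res Q) h5
    have hX0 : (Polynomial.X ^ c * r.map (io E)) ≠ 0 := mul_ne_zero (pow_ne_zero _ Polynomial.X_ne_zero)
      ((Polynomial.map_ne_zero_iff io_injective).2 hr)
    have hXd : (Polynomial.X ^ c * r.map (io E)).natDegree = B * qt.natDegree - 1 := by
      rw [Polynomial.natDegree_mul (pow_ne_zero _ Polynomial.X_ne_zero)
        ((Polynomial.map_ne_zero_iff io_injective).2 hr), Polynomial.natDegree_X_pow,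
        Polynomial.natDegree_map_eq_of_injective io_injective]
      omega
    have hXdeg : (Polynomial.X ^ c * r.map (io E)).degree < ((B * Q.natDegree : ℕ) : WithBot ℕ) := by
      rw [Polynomial.degree_eq_natDegree hX0, hXd, hQdeg]
      exact_mod_cast (by omega : B * qt.natDegree - 1 < B * qt.natDegree)
    rw [map_smul, h4, smul_zero, map_add, hΛ.1 _ 1 one_ne_zero isCoprime_one_left, zero_add,
      hΛ.2 _ B hXdeg] at h9
    have h10 : (Polynomial.X ^ c * r.map (io E)).coeff (B * Q.natDegree - 1) ≠ 0 := by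
      rw [hQdeg, ← hXd]
      exact Polynomial.leadingCoeff_ne_zero.2 hX0
    have h11 : Q.leadingCoeff ^ B ≠ 0 := pow_ne_zero _ (Polynomial.leadingCoeff_ne_zero.2 hQ0)
    exact (div_ne_zero h10 h11) h9.symm
  -- divisibility
  have hev := congrArg (Polynomial.eval (X j : MvPolynomial ℕ E)) hdiv
  rw [hr0, add_zero, Polynomial.eval_mul, Polynomial.eval_C, eval_toX, Polynomial.eval_mul, hG,
    Polynomial.eval_pow, hqt, eval_toX, ← hqt, ← hG] at hev
  have hnd : ¬ q ∣ G.leadingCoeff ^ M := by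
    intro h
    rw [hGlc] at h
    exact free hlc0 hlcj (hq.dvd_of_dvd_pow (hq.dvd_of_dvd_pow h))
  obtain ⟨h', hh'⟩ : q ^ B ∣ f * β' :=
    Prime.pow_dvd_of_dvd_mul_left hq B hnd ⟨_, hev⟩
  refine ⟨h' * g + f * α ^ B, ρ ^ B * g, ?_, ?_⟩
  · intro h
    rcases hq.dvd_or_dvd h with h | h
    · exact free hρ0 hρj (hq.dvd_of_dvd_pow h)
    · exact hg h
  · have hρB : io E (ρ ^ B) ≠ 0 := ioz (pow_ne_zero _ hρ0)
    have h1 : W = (io E h' + io E (f * α ^ B) / io E g) / io E (ρ ^ B) := by
      rw [eq_div_iff hρB, mul_comm, hsplit, hh', map_mul, map_pow,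
        mul_div_cancel_left₀ _ (pow_ne_zero B hioq)]
    rw [h1, map_add, map_mul (io E) h' g, map_mul (io E) (ρ ^ B) g,
      eq_div_iff (mul_ne_zero hρB hiog)]
    field_simp

end Pool.Agent.RS.H47
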