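import Pool.Agent.RS.StmtsF

set_option autoImplicit false

/-!
# Squad RS, row NMT: `numer` and `total`
-/

namespace Pool.Agent.RS.H47

open MvPolynomial

theorem sum_div_eq {ι : Type} [Fintype ι] [DecidableEq ι] {R K : Type} [CommRing R] [Field K]
    (φ : R →+* K) (a b : ι → R) (hb : ∀ t, φ (b t) ≠ 0) :
    ∑ t, φ (a t) / φ (b t) = φ (numer a b) / φ (∏ t, b t) := by
  have hprod : (∏ t, φ (b t)) ≠ 0 := Finset.prod_ne_zero_iff.2 fun t _ => hb t
  rw [map_prod, eq_div_iff hprod, Finset.sum_mul]
  unfold numer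
  rw [map_sum]
  refine Finset.sum_congr rfl fun t _ => ?_
  rw [map_mul, map_prod, ← Finset.mul_prod_erase Finset.univ (fun t => φ (b t)) (Finset.mem_univ t),
    div_mul_eq_mul_div, div_eq_iff (hb t)]
  ring

theorem nmt : NmtStmt := by
  intro ι _ _
  refine ⟨fun R K _ _ φ a b hb => sum_div_eq φ a b hb, ?_, ?_⟩
  · intro R S _ _ φ a b
    unfold numer
    rw [map_sum]
    refine Finset.sum_congr rfl fun t _ => ?_
    rw [map_mul, map_prod]
  · intro E _ a b hb
    have hb' : ∀ t, io E (b t) ≠ 0 := by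
      intro t h
      exact hb t (io_injective (h.trans (map_zero (io E)).symm))
    have h1 : total a b = io E (numer a b) / io E (∏ t, b t) := sum_div_eq (io E) a b hb'
    have hprod : io E (∏ t, b t) ≠ 0 := by
      rw [map_prod]
      exact Finset.prod_ne_zero_iff.2 fun t _ => hb' t
    refine ⟨h1, ?_⟩
    rw [h1, Ne, div_eq_zero_iff, not_or]
    constructor
    · rintro ⟨h, -⟩ h0
      exact h (by rw [h0, map_zero])
    · intro h
      exact ⟨fun h0 => h (io_injective (h0.trans (map_zero (io E)).symm)), hprod⟩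

end Pool.Agent.RS.H47
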